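import Pool.Agent.helper73.AD.GW1
import Pool.Agent.helper73.AD.GWL

/-!
WD: the derivative of the coordinates along the twist deformation (project ad, Wolpert part).
-/

open scoped MatrixGroups LinearAlgebra.Projectivization BigOperators
open Matrix UpperHalfPlane
open Pool.Agent.helper73.AD (PS Word Arc sg Cone)

namespace AdSBend

open LeafSystem

theorem WD_dsd_zero (a b c : ℝ) : dsd a b c 0 0 0 = 0 := by
  unfold dsd
  simp

theorem WD_mu_zero {Γ : Subgroup SL(2, ℝ)} {J K : Type} (c : WCtx Γ J K) (i : ℕ) (A : Arc J) :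
    c.mu (fun _ => (0 : ℝ)) i A = 0 := by
  unfold WCtx.mu
  cases A with
  | seam a b d => simp [arcV, WD_dsd_zero]
  | wave a b d => simp [arcV, WD_dsd_zero]

theorem WD_ip_zero (X : M2) : ip X 0 = 0 := by simp [ip]

/-- directional derivatives of the coordinates -/
theorem WD_dir (hQ : WQ1_stmt) (hP : WP1_stmt) (hH : WH4_stmt) {Γ : Subgroup SL(2, ℝ)}
    {J K : Type} [Fintype J] [DecidableEq J] (c : WCtx Γ J K) (V : c.Vel) :
    ((fun j => V.xd (c.X.D.P j),
      fun j => ip (V.nu (c.X.D.P j) (c.X.D.U j) - V.nu (sw (c.X.D.P j)) (c.X.D.V j))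
        (c.a (c.X.D.P j))) : PS J) = sg (fderiv ℝ c.w.H c.z) := by
  unfold sg
  refine Prod.ext ?_ ?_
  · funext j
    change V.xd (c.X.D.P j) = -(fderiv ℝ c.w.H c.z) ((0, Pi.single j 1) : PS J)
    rw [hQ Γ J K c V j, hH Γ J K c ((0, Pi.single j 1) : PS J)]
    congr 1
    refine Finset.sum_congr rfl fun i _ => ?_
    have h0 : c.mu ((0, Pi.single j 1) : PS J).1 i.val (c.w.A i) = 0 := WD_mu_zero c _ _
    rw [h0, WD_ip_zero]
    by_cases h : c.w.j i = j
    · rw [h]; simp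
    · rw [if_neg h]; simp [Pi.single_apply, h]
  · funext j
    change ip (V.nu (c.X.D.P j) (c.X.D.U j) - V.nu (sw (c.X.D.P j)) (c.X.D.V j))
        (c.a (c.X.D.P j)) = (fderiv ℝ c.w.H c.z) ((Pi.single j 1, 0) : PS J)
    rw [hH Γ J K c ((Pi.single j 1, 0) : PS J)]
    have h1 := hP Γ J K c V (Pi.single j 1)
    have h2 : ∑ j', (Pi.single j 1 : J → ℝ) j' *
        ip (V.nu (c.X.D.P j') (c.X.D.U j') - V.nu (sw (c.X.D.P j')) (c.X.D.V j'))
          (c.a (c.X.D.P j')) =
        ip (V.nu (c.X.D.P j) (c.X.D.U j) - V.nu (sw (c.X.D.P j)) (c.X.D.V j))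
          (c.a (c.X.D.P j)) := by
      rw [Finset.sum_eq_single j]
      · simp
      · intro b _ hb; simp [Pi.single_apply, hb]
      · intro h; exact absurd (Finset.mem_univ _) h
    rw [h2] at h1
    rw [h1]
    refine Finset.sum_congr rfl fun i _ => ?_
    simp

theorem WD (hTF : TF1_stmt) (hTW : TW2_stmt) (hPN : PN3_stmt) (hQ : WQ1_stmt) (hP : WP1_stmt)
    (hH : WH4_stmt) (hV4 : WV4_stmt) (hV5 : WV5_stmt) : WD_stmt := by
  intro Γ hΓ J K _ _ _ _ X f r z₀ A hD Z hA hZ T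
  have hC : ContDiff ℝ 1 Z := hV5 Γ hΓ J K X f r z₀ A hD Z hA hZ
  have hd : DifferentiableAt ℝ Z T := (hC.differentiable (by norm_num)) T
  obtain ⟨hrep, htr, -⟩ := hTF Γ hΓ X.S' f r hD.conj
  have hyp : ∀ p ∈ X.S'.L, 2 < |trc (A T (gen Γ p • z₀) * r (gen Γ p))| := by
    intro p hp
    obtain ⟨z, hz⟩ := (hPN Γ hΓ X.S' p hp).1
    have h1 := (hTW Γ hΓ X.S' r (fun p => T (X.D'.cls p)) z₀ hrep htr
      (fun γ hγ p hp => by simp only [X.D'.cls_ga γ hγ p hp])
      (fun p hp => by simp only [X.D'.cls_sw p hp]) hD.off).2 (A T) (hD.twist T)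
    have h2 := h1.2.2.1 p hp z hz
    have h3 : trc (A T z * r (gen Γ p) * (A T z)⁻¹) = trc (r (gen Γ p)) := by
      have h4 : ∀ g : SL(2, ℝ), trc g = g.1.trace := by
        intro g; simp [trc, Matrix.trace_fin_two]
      rw [h4, h4]
      have h5 : ((A T z * r (gen Γ p) * (A T z)⁻¹ : SL(2, ℝ))).1
          = (A T z).1 * (r (gen Γ p)).1 * ((A T z)⁻¹).1 := by
        simp
      rw [h5, Matrix.trace_mul_comm, ← mul_assoc]
      have h6 : ((A T z)⁻¹).1 * (A T z).1 = 1 := by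
        rw [← Matrix.SpecialLinearGroup.coe_mul, inv_mul_cancel]; rfl
      rw [h6, one_mul]
    rcases h2 with h | h
    · rw [h, h3]; exact htr p hp
    · have h7 : ∀ g : SL(2, ℝ), trc (-g) = -trc g := by
        intro g; simp [trc]; ring
      rw [h, h7, h3, abs_neg]; exact htr p hp
  have key : ∀ k : K, fderiv ℝ Z T (Pi.single k 1) = sg (fderiv ℝ (X.w k).H (Z T)) := by
    intro k
    let c : WCtx Γ J K :=
      { hΓ := hΓ, X := X, ρ := fun γ => A T (γ • z₀) * r γ, adm := hA T, hyp := hyp, k := k,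
        z₀ := z₀, off := hD.off, z := Z T, coord := hZ T }
    obtain ⟨V, hV⟩ := hV4 Γ J K c f r A Z T hD hA hZ rfl
    have h1 := WD_dir hQ hP hH c V
    have h2 : HasDerivAt (fun s : ℝ => Z (T + s • Pi.single k 1))
        (fderiv ℝ Z T (Pi.single k 1)) 0 := by
      have h3 : HasFDerivAt Z (fderiv ℝ Z T) (T + (0 : ℝ) • (Pi.single k 1 : K → ℝ)) := by
        simpa using hd.hasFDerivAt
      have h4 : HasDerivAt (fun s : ℝ => T + s • (Pi.single k 1 : K → ℝ)) (Pi.single k 1) 0 := by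
        have := ((hasDerivAt_id (0 : ℝ)).smul_const (Pi.single k 1 : K → ℝ)).const_add T
        simpa using this
      exact h3.comp_hasDerivAt 0 h4
    rw [← show ((fun j => V.xd (c.X.D.P j),
      fun j => ip (V.nu (c.X.D.P j) (c.X.D.U j) - V.nu (sw (c.X.D.P j)) (c.X.D.V j))
        (c.a (c.X.D.P j))) : PS J) = sg (fderiv ℝ (X.w k).H (Z T)) from h1]
    refine Prod.ext ?_ ?_
    · funext j
      have h5 : HasDerivAt (fun s : ℝ => (Z (T + s • Pi.single k 1)).1 j)
          ((fderiv ℝ Z T (Pi.single k 1)).1 j) 0 := by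
        have h6 := (ContinuousLinearMap.fst ℝ (J → ℝ) (J → ℝ)).hasFDerivAt.comp_hasDerivAt 0 h2
        exact hasDerivAt_pi.mp h6 j
      exact h5.unique (hV j).1
    · funext j
      have h5 : HasDerivAt (fun s : ℝ => (Z (T + s • Pi.single k 1)).2 j)
          ((fderiv ℝ Z T (Pi.single k 1)).2 j) 0 := by
        have h6 := (ContinuousLinearMap.snd ℝ (J → ℝ) (J → ℝ)).hasFDerivAt.comp_hasDerivAt 0 h2
        exact hasDerivAt_pi.mp h6 j
      exact h5.unique (hV j).2
  have hL : fderiv ℝ Z T = ∑ k, (ContinuousLinearMap.proj k : (K → ℝ) →L[ℝ] ℝ).smulRight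
      (sg (fderiv ℝ (X.w k).H (Z T))) := by
    refine ContinuousLinearMap.ext fun v => ?_
    have hv : v = ∑ k, v k • (Pi.single k (1 : ℝ) : K → ℝ) := by
      funext m
      simp [Finset.sum_apply, Pi.single_apply]
    conv_lhs => rw [hv]
    rw [map_sum, _root_.sum_apply]
    refine Finset.sum_congr rfl fun k _ => ?_
    rw [map_smul, key k]
    simp
  rw [← hL]
  exact hd.hasFDerivAt

end AdSBend
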