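import Pool.Agent.helper73.AD.GW1

/-!
WP1: variation of the twist parameters (project ad, Wolpert part).
-/

open scoped MatrixGroups LinearAlgebra.Projectivization BigOperators
open Matrix UpperHalfPlane
open Pool.Agent.helper73.AD (PS Word Arc sg Cone)

namespace AdSBend

open LeafSystem

theorem WP1_shift (n : ℕ) (g : ℤ → ℝ) (hg : g ((n : ℤ) + 1) = g 0) :
    ∑ i : Fin (n + 1), g ((i.val : ℤ) + 1) = ∑ i : Fin (n + 1), g (i.val : ℤ) := by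
  rw [Fin.sum_univ_castSucc, Fin.sum_univ_succ (f := fun i : Fin (n + 1) => g (i.val : ℤ))]
  simp only [Fin.val_castSucc, Fin.val_last, Fin.val_zero, Fin.val_succ, Nat.cast_zero,
    Nat.cast_add, Nat.cast_one]
  rw [hg]; ring

theorem WP1 (hA0 : WA0_stmt) (hA1 : WA1_stmt) (hF0 : WF0_stmt) (hY : WY1_stmt) (hR4 : WR4_stmt)
    (hF4 : WF4_stmt) (hS2 : WS2_stmt) (hS3 : WS3_stmt) (hE4 : WE4_stmt) (hE5 : WE5_stmt)
    (hC5 : WC5_stmt) (hQ : WQ1_stmt) (hGM : GM1_stmt) : WP1_stmt := by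
  intro Γ J K _ _ c V x'
  obtain ⟨B⟩ := hY Γ J K c
  obtain ⟨f1, f2, f3⟩ := hF4 Γ J K c B x'
  have h1 := hS3 Γ J K c B V x'
  have h2 := hS2 Γ J K c B V x'
  have h3 := hR4 Γ J K c B (fun τ b => B.Psi x' τ b) f1 f2 f3
  -- the reference leaf
  have hlmem : c.l ∈ c.X.S'.L := c.X.D'.memP c.k
  have hgen := hGM Γ c.hΓ c.l (c.X.S'.closed _ hlmem)
  have hfix : ga (gen Γ c.l) c.l = c.l := Prod.ext hgen.2.1.2.1 hgen.2.1.2.2.1
  have hal : cj (c.ρ (gen Γ c.l)) (c.a c.l) = c.a c.l := by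
    rw [← (hF0.2.2.2 Γ J K c c.l hlmem).2.2 (gen Γ c.l) hgen.1, hfix]
  set g : ℤ → ℝ := fun i => B.be i * (x' (c.cls (c.W.A i)) / 2) *
    ip (c.a c.l) (c.a (c.W.A i)) with hg
  have hper : g ((c.w.n : ℤ) + 1) = g 0 := by
    have e1 : B.be (0 + c.w.n + 1) = B.be 0 := (hE4 Γ J K c B 0).2.2
    have e2 : c.W.A (0 + c.w.n + 1) = ga (gen Γ c.l) (c.W.A 0) := c.W.perA 0
    have hm : c.W.A 0 ∈ c.X.S.L := (c.W.mem 0).1
    have e3 : c.cls (ga (gen Γ c.l) (c.W.A 0)) = c.cls (c.W.A 0) :=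
      c.X.D.cls_ga _ hgen.1 _ hm
    have e4 : c.a (ga (gen Γ c.l) (c.W.A 0)) = cj (c.ρ (gen Γ c.l)) (c.a (c.W.A 0)) :=
      (((hA1 Γ c.hΓ c.X.S c.ρ c.adm).1 _ hm).2.2.2.2.2 _ hgen.1).1
    have e5 : ip (c.a c.l) (cj (c.ρ (gen Γ c.l)) (c.a (c.W.A 0))) =
        ip (c.a c.l) (c.a (c.W.A 0)) := by
      conv_lhs => rw [← hal]
      exact hA0.1 _ _ _
    have e0 : ((c.w.n : ℤ) + 1) = 0 + c.w.n + 1 := by ring
    simp only [hg]
    rw [e0, e1, e2, e3, e4, e5]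
  have hshift := WP1_shift c.w.n g hper
  -- evaluation of the right hand side
  have h5 : ∀ i : Fin (c.w.n + 1),
      ∑ᶠ τ ∈ {τ : Tri | c.InPl (i.val : ℤ) τ}, B.Psi x' τ c.l =
      -ip (c.a c.l) (c.mu x' i.val (c.w.A i)) +
      B.al (i.val : ℤ) * (x' (c.cls (c.W.A (i.val : ℤ))) / 2) *
        ip (c.a c.l) (c.a (c.W.A (i.val : ℤ))) + g ((i.val : ℤ) + 1) :=
    fun i => hE5 Γ J K c B x' i
  have h6 : ∑ i : Fin (c.w.n + 1), ∑ᶠ τ ∈ {τ : Tri | c.InPl (i.val : ℤ) τ}, B.Psi x' τ c.l =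
      ∑ i : Fin (c.w.n + 1), (-ip (c.a c.l) (c.mu x' i.val (c.w.A i)) +
        (1 - c.w.c i) * x' (c.w.j i) * ip (c.a c.l) (c.a (c.W.A (i.val : ℤ)))) := by
    rw [Finset.sum_congr rfl fun i _ => h5 i, Finset.sum_add_distrib, hshift,
      ← Finset.sum_add_distrib]
    refine Finset.sum_congr rfl fun i _ => ?_
    have hc : B.al (i.val : ℤ) + B.be (i.val : ℤ) = 2 - 2 * c.w.c i := hC5 Γ J K c B i
    have hj : c.cls (c.W.A (i.val : ℤ)) = c.w.j i := (c.W.cj i).symm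
    simp only [hg]
    rw [hj]
    have hb : B.be (i.val : ℤ) = 2 - 2 * c.w.c i - B.al (i.val : ℤ) := by linarith
    rw [hb]
    ring
  -- the lengths
  have h7 : ∑ j, x' j * V.xd (c.X.D.P j) =
      -∑ i : Fin (c.w.n + 1), x' (c.w.j i) * ip (c.a c.l) (c.a (c.W.A (i.val : ℤ))) := by
    have e1 : ∀ j, x' j * V.xd (c.X.D.P j) = -∑ i : Fin (c.w.n + 1),
        if c.w.j i = j then x' j * ip (c.a c.l) (c.a (c.W.A (i.val : ℤ))) else 0 := by
      intro j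
      rw [hQ Γ J K c V j, mul_neg, Finset.mul_sum]
      congr 1
      refine Finset.sum_congr rfl fun i _ => ?_
      split_ifs <;> simp
    rw [Finset.sum_congr rfl fun j _ => e1 j, Finset.sum_neg_distrib, Finset.sum_comm]
    congr 1
    refine Finset.sum_congr rfl fun i _ => ?_
    rw [Finset.sum_ite_eq]
    simp
  have h8 : ∑ j, x' j * (ip (V.nu (c.X.D.P j) (c.X.D.U j) -
      V.nu (sw (c.X.D.P j)) (c.X.D.V j)) (c.a (c.X.D.P j)) + V.xd (c.X.D.P j)) =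
      ∑ j, x' j * ip (V.nu (c.X.D.P j) (c.X.D.U j) - V.nu (sw (c.X.D.P j)) (c.X.D.V j))
        (c.a (c.X.D.P j)) + ∑ j, x' j * V.xd (c.X.D.P j) := by
    rw [← Finset.sum_add_distrib]
    exact Finset.sum_congr rfl fun j _ => by ring
  have h9 : ∑ i : Fin (c.w.n + 1),
      (c.w.c i * x' (c.w.j i) * ip (c.a c.l) (c.a (c.W.A (i.val : ℤ))) +
        ip (c.a c.l) (c.mu x' i.val (c.w.A i))) =
      -(∑ i : Fin (c.w.n + 1), (-ip (c.a c.l) (c.mu x' i.val (c.w.A i)) +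
        (1 - c.w.c i) * x' (c.w.j i) * ip (c.a c.l) (c.a (c.W.A (i.val : ℤ))))) +
      ∑ i : Fin (c.w.n + 1), x' (c.w.j i) * ip (c.a c.l) (c.a (c.W.A (i.val : ℤ))) := by
    rw [← Finset.sum_neg_distrib, ← Finset.sum_add_distrib]
    exact Finset.sum_congr rfl fun i _ => by ring
  rw [h9, ← h6]
  rw [h8] at h1
  linarith [h1, h2, h3, h7]

end AdSBend
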