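import Pool.Agent.helper73.AD.GW1

/-!
WS2: Stokes formula with virtual base points (project ad, Wolpert part).
-/

open scoped MatrixGroups LinearAlgebra.Projectivization BigOperators
open Matrix UpperHalfPlane
open Pool.Agent.helper73.AD (PS Word Arc sg Cone)

namespace AdSBend

open LeafSystem

/-! ### the scalar product -/

theorem WS2_ip_add_left (X Y Z : M2) : ip (X + Y) Z = ip X Z + ip Y Z := by
  simp [ip, add_mul, Matrix.trace_add, add_div]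

theorem WS2_ip_sub_left (X Y Z : M2) : ip (X - Y) Z = ip X Z - ip Y Z := by
  simp [ip, sub_mul, Matrix.trace_sub, sub_div]

theorem WS2_ip_smul_left (t : ℝ) (X Z : M2) : ip (t • X) Z = t * ip X Z := by
  simp [ip, Matrix.trace_smul, mul_div_assoc]

theorem WS2_ip_neg_right (X Z : M2) : ip X (-Z) = -ip X Z := by
  simp [ip, Matrix.trace_neg, neg_div]

/-- the scalar product with a fixed vector as an additive map -/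
noncomputable def WS2_ipHom (Z : M2) : M2 →+ ℝ where
  toFun X := ip X Z
  map_zero' := by simp [ip]
  map_add' X Y := WS2_ip_add_left X Y Z

/-- conjugation as an additive map -/
noncomputable def WS2_cjHom (g : SL(2, ℝ)) : M2 →+ M2 where
  toFun X := cj g X
  map_zero' := by simp [cj]
  map_add' X Y := by simp [cj, mul_add, add_mul]

variable {Γ : Subgroup SL(2, ℝ)} {J K : Type}

theorem WS2_mul (s : Set (Bd × Bd)) (f : Bd × Bd → ℝ) (r : ℝ)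
    (h : (s ∩ Function.support f).Finite) : r * ∑ᶠ b ∈ s, f b = ∑ᶠ b ∈ s, r * f b :=
  AddMonoidHom.map_finsum_mem' (AddMonoidHom.mulLeft r) h

theorem WS2_sub (s : Set (Bd × Bd)) (f g : Bd × Bd → ℝ) (h : {b | b ∈ s ∧ f b ≠ 0}.Finite) :
    (s ∩ Function.support (fun b => f b * g b)).Finite := by
  refine h.subset ?_
  rintro b ⟨hb, hb'⟩
  refine ⟨hb, fun h => hb' ?_⟩
  change f b * g b = 0
  rw [h, zero_mul]

theorem WS2_sub' (s : Set (Bd × Bd)) (f g : Bd × Bd → ℝ) (r : ℝ)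
    (h : {b | b ∈ s ∧ f b ≠ 0}.Finite) :
    (s ∩ Function.support (fun b => r * f b * g b)).Finite := by
  refine h.subset ?_
  rintro b ⟨hb, hb'⟩
  refine ⟨hb, fun h => hb' ?_⟩
  change r * f b * g b = 0
  rw [h, mul_zero, zero_mul]

/-- weighted sums of the unit vectors of the translates of `l` -/
noncomputable def WS2_Sm (c : WCtx Γ J K) (f : Bd × Bd → ℝ) : M2 :=
  ∑ᶠ b ∈ orb Γ c.l, f b • c.a b

theorem WS2_supp (c : WCtx Γ J K) {f : Bd × Bd → ℝ} (hf : {b | b ∈ orb Γ c.l ∧ f b ≠ 0}.Finite) :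
    (orb Γ c.l ∩ Function.support (fun b => f b • c.a b)).Finite := by
  refine hf.subset ?_
  rintro b ⟨hb, hb'⟩
  refine ⟨hb, fun h => hb' ?_⟩
  simp [h]

theorem WS2_Sm_sub (c : WCtx Γ J K) {f g : Bd × Bd → ℝ}
    (hf : {b | b ∈ orb Γ c.l ∧ f b ≠ 0}.Finite) (hg : {b | b ∈ orb Γ c.l ∧ g b ≠ 0}.Finite) :
    WS2_Sm c (fun b => f b - g b) = WS2_Sm c f - WS2_Sm c g := by
  unfold WS2_Sm
  have h1 : ∀ b, (f b - g b) • c.a b = f b • c.a b + -(g b • c.a b) := by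
    intro b; rw [sub_smul, sub_eq_add_neg]
  simp only [h1]
  rw [finsum_mem_add_distrib' (WS2_supp c hf)]
  · rw [sub_eq_add_neg]
    congr 1
    have h2 := (AddMonoidHom.map_finsum_mem' (f := fun b => g b • c.a b)
      (negAddMonoidHom : M2 →+ M2) (WS2_supp c hg))
    exact h2.symm
  · refine (WS2_supp c hg).subset ?_
    rintro b ⟨hb, hb'⟩
    refine ⟨hb, fun h => hb' ?_⟩
    simp only at h
    simp [h]

theorem WS2_ip_Sm (c : WCtx Γ J K) {f : Bd × Bd → ℝ}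
    (hf : {b | b ∈ orb Γ c.l ∧ f b ≠ 0}.Finite) (Z : M2) :
    ip (WS2_Sm c f) Z = ∑ᶠ b ∈ orb Γ c.l, f b * ip (c.a b) Z := by
  unfold WS2_Sm
  have h := AddMonoidHom.map_finsum_mem' (f := fun b => f b • c.a b) (WS2_ipHom Z)
    (WS2_supp c hf)
  have h2 : (WS2_ipHom Z) (∑ᶠ b ∈ orb Γ c.l, f b • c.a b) =
      ip (∑ᶠ b ∈ orb Γ c.l, f b • c.a b) Z := rfl
  rw [← h2, h]
  refine finsum_mem_congr rfl fun b _ => ?_
  exact WS2_ip_smul_left _ _ _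

theorem WS2_orb_ga {l b : Bd × Bd} {γ : SL(2, ℝ)} (hγ : γ ∈ Γ) :
    ga γ b ∈ orb Γ l ↔ b ∈ orb Γ l := by
  constructor
  · rintro ⟨δ, hδ, h⟩
    refine ⟨γ⁻¹ * δ, Γ.mul_mem (Γ.inv_mem hγ) hδ, ?_⟩
    have h1 : γ • b.1 = δ • l.1 := congrArg Prod.fst h
    have h2 : γ • b.2 = δ • l.2 := congrArg Prod.snd h
    refine Prod.ext ?_ ?_
    · change b.1 = (γ⁻¹ * δ) • l.1
      rw [mul_smul, ← h1, inv_smul_smul]
    · change b.2 = (γ⁻¹ * δ) • l.2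
      rw [mul_smul, ← h2, inv_smul_smul]
  · rintro ⟨δ, hδ, h⟩
    refine ⟨γ * δ, Γ.mul_mem hγ hδ, ?_⟩
    rw [h]
    exact Prod.ext (mul_smul _ _ _).symm (mul_smul _ _ _).symm

/-- reindexing by an element of the group -/
theorem WS2_Sm_ga (hF0 : WF0_stmt) (c : WCtx Γ J K) (hmem : ∀ b ∈ orb Γ c.l, b ∈ c.X.S'.L)
    {γ : SL(2, ℝ)} (hγ : γ ∈ Γ) {f : Bd × Bd → ℝ}
    (hf : {b | b ∈ orb Γ c.l ∧ f (ga γ b) ≠ 0}.Finite) :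
    WS2_Sm c f = cj (c.ρ γ) (WS2_Sm c (fun b => f (ga γ b))) := by
  unfold WS2_Sm
  have h := AddMonoidHom.map_finsum_mem' (f := fun b => f (ga γ b) • c.a b) (WS2_cjHom (c.ρ γ))
    (WS2_supp c (f := fun b => f (ga γ b)) hf)
  have h2 : (WS2_cjHom (c.ρ γ)) (∑ᶠ b ∈ orb Γ c.l, f (ga γ b) • c.a b) =
      cj (c.ρ γ) (∑ᶠ b ∈ orb Γ c.l, f (ga γ b) • c.a b) := rfl
  rw [← h2, h]
  symm
  refine finsum_mem_eq_of_bijOn (ga γ) ?_ ?_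
  · refine ⟨fun b hb => (WS2_orb_ga hγ).mpr hb, ?_, ?_⟩
    · intro b _ b' _ hbb
      have h3 : γ • b.1 = γ • b'.1 := congrArg Prod.fst hbb
      have h4 : γ • b.2 = γ • b'.2 := congrArg Prod.snd hbb
      exact Prod.ext (smul_left_cancel γ h3) (smul_left_cancel γ h4)
    · intro b hb
      refine ⟨ga γ⁻¹ b, (WS2_orb_ga (Γ.inv_mem hγ)).mpr hb, ?_⟩
      exact Prod.ext (smul_inv_smul _ _) (smul_inv_smul _ _)
  · intro b hb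
    change cj (c.ρ γ) (f (ga γ b) • c.a b) = f (ga γ b) • c.a (ga γ b)
    rw [(hF0.2.2.2 Γ J K c b (hmem b hb)).2.2 γ hγ]
    simp [cj]

/-- the virtual translation of a triple -/
noncomputable def WS2_V (c : WCtx Γ J K) (τ : Tri) : M2 :=
  WS2_Sm c (fun b => chT b τ - chi b c.z₀)

theorem WS2_fin (hF2 : WF2_stmt) (c : WCtx Γ J K) {τ : Tri} (hτ : c.X.S.IsHex τ) {z : ℍ}
    (hz : c.X.S'.OffPt z) : {b | b ∈ orb Γ c.l ∧ chT b τ - chi b z ≠ 0}.Finite := by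
  refine (hF2 Γ J K c τ hτ z hz).subset ?_
  rintro b ⟨hb, hb'⟩
  exact ⟨hb, fun h => hb' (by rw [h, sub_self])⟩

theorem WS2_fin' (hF1 : WF1_stmt) (c : WCtx Γ J K) {z z' : ℍ}
    (hz : c.X.S'.OffPt z) (hz' : c.X.S'.OffPt z') :
    {b | b ∈ orb Γ c.l ∧ chi b z' - chi b z ≠ 0}.Finite := by
  refine ((hF1 Γ J K c).2.1 z z' hz hz').1.subset ?_
  rintro b ⟨hb, hb'⟩
  exact ⟨hb, fun h => hb' (by rw [h, sub_self])⟩

theorem WS2_fx (hF1 : WF1_stmt) (c : WCtx Γ J K) {z z' : ℍ}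
    (hz : c.X.S'.OffPt z) (hz' : c.X.S'.OffPt z') :
    c.fx z z' = WS2_Sm c (fun b => chi b z' - chi b z) :=
  ((hF1 Γ J K c).2.1 z z' hz hz').2.1

/-- change of the base point for the virtual translation -/
theorem WS2_V_sub (hF1 : WF1_stmt) (hF2 : WF2_stmt) (c : WCtx Γ J K) {τ : Tri}
    (hτ : c.X.S.IsHex τ) {z : ℍ} (hz : c.X.S'.OffPt z) :
    WS2_V c τ - c.fx c.z₀ z = WS2_Sm c (fun b => chT b τ - chi b z) := by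
  rw [WS2_fx hF1 c c.off hz]
  unfold WS2_V
  rw [← WS2_Sm_sub c (WS2_fin hF2 c hτ c.off) (WS2_fin' hF1 c c.off hz)]
  congr 1
  funext b
  ring

theorem WS2_V_mir (hF2 : WF2_stmt) (c : WCtx Γ J K) {τ τ' : Tri}
    (hτ : c.X.S.IsHex τ) (hτ' : c.X.S.IsHex τ') :
    WS2_V c τ - WS2_V c τ' = WS2_Sm c (fun b => chT b τ - chT b τ') := by
  unfold WS2_V
  rw [← WS2_Sm_sub c (WS2_fin hF2 c hτ c.off) (WS2_fin hF2 c hτ' c.off)]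
  congr 1
  funext b
  ring

theorem WS2_V_ga (hF0 : WF0_stmt) (hF1 : WF1_stmt) (hF2 : WF2_stmt) (c : WCtx Γ J K) {τ : Tri}
    (hτ : c.X.S.IsHex τ) {γ : SL(2, ℝ)} (hγ : γ ∈ Γ) :
    WS2_V c (gat γ τ) = cj (c.ρ γ) (WS2_V c τ) + c.fx c.z₀ (γ • c.z₀) := by
  have hmem : ∀ b ∈ orb Γ c.l, b ∈ c.X.S'.L := fun b hb => ((hF1 Γ J K c).1 b hb).1
  have hoff' : c.X.S'.OffPt (γ⁻¹ • c.z₀) :=
    ((hF1 Γ J K c).2.2.2 γ⁻¹ (Γ.inv_mem hγ) c.z₀ c.z₀ c.off c.off).1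
  have e1 : ∀ b, chT (ga γ b) (gat γ τ) - chi (ga γ b) c.z₀ = chT b τ - chi b (γ⁻¹ • c.z₀) := by
    intro b
    rw [hF0.2.1]
    have : chi (ga γ b) c.z₀ = chi b (γ⁻¹ • c.z₀) := by
      rw [← hF0.1 γ b (γ⁻¹ • c.z₀), smul_inv_smul]
    rw [this]
  have hfin : {b | b ∈ orb Γ c.l ∧ (fun b => chT b (gat γ τ) - chi b c.z₀) (ga γ b) ≠ 0}.Finite := by
    have : {b | b ∈ orb Γ c.l ∧ (fun b => chT b (gat γ τ) - chi b c.z₀) (ga γ b) ≠ 0} =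
        {b | b ∈ orb Γ c.l ∧ chT b τ - chi b (γ⁻¹ • c.z₀) ≠ 0} := by
      ext b
      simp only [Set.mem_ofPred_eq, e1]
    rw [this]
    exact WS2_fin hF2 c hτ hoff'
  unfold WS2_V
  rw [WS2_Sm_ga hF0 c hmem hγ (f := fun b => chT b (gat γ τ) - chi b c.z₀) hfin]
  simp only [e1]
  rw [← WS2_V_sub hF1 hF2 c hτ hoff']
  have h3 : cj (c.ρ γ) (WS2_V c τ - c.fx c.z₀ (γ⁻¹ • c.z₀)) =
      cj (c.ρ γ) (WS2_V c τ) - cj (c.ρ γ) (c.fx c.z₀ (γ⁻¹ • c.z₀)) := by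
    simp [cj, mul_sub, sub_mul]
  rw [h3]
  have h4 : cj (c.ρ γ) (c.fx c.z₀ (γ⁻¹ • c.z₀)) = c.fx (γ • c.z₀) c.z₀ := by
    rw [← ((hF1 Γ J K c).2.2.2 γ hγ c.z₀ (γ⁻¹ • c.z₀) c.off hoff').2, smul_inv_smul]
  have hoff2 : c.X.S'.OffPt (γ • c.z₀) :=
    ((hF1 Γ J K c).2.2.2 γ hγ c.z₀ c.z₀ c.off c.off).1
  have h5 : c.fx c.z₀ c.z₀ = 0 := by
    have := (hF1 Γ J K c).2.2.1 c.z₀ c.z₀ c.z₀ c.off c.off c.off
    simpa using this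
  have h6 : c.fx c.z₀ (γ • c.z₀) + c.fx (γ • c.z₀) c.z₀ = 0 := by
    rw [← (hF1 Γ J K c).2.2.1 c.z₀ (γ • c.z₀) c.z₀ c.off hoff2 c.off, h5]
  rw [h4]
  have h7 : c.fx (γ • c.z₀) c.z₀ = -c.fx c.z₀ (γ • c.z₀) := by
    rw [eq_neg_iff_add_eq_zero, add_comm]; exact h6
  rw [h7, sub_neg_eq_add]
  rfl

theorem WS2_V_rot (hF0 : WF0_stmt) (c : WCtx Γ J K) (τ : Tri) :
    WS2_V c (rotT τ) = WS2_V c τ := by
  unfold WS2_V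
  congr 1
  funext b
  rw [hF0.2.2.1]

/-- long side of a triple, virtual base point -/
noncomputable def WS2_long (c : WCtx Γ J K) (V : c.Vel) (x' : J → ℝ) (τ : Tri) : ℝ :=
  (x' (c.cls τ.1) / 2) *
    ip ((1 / 2 : ℝ) • ((V.nu τ.1 τ.2.1 + WS2_V c τ) + (V.nu τ.1 τ.2.2 + WS2_V c τ))) (c.a τ.1)

/-- seam of a triple, virtual base point -/
noncomputable def WS2_seam (c : WCtx Γ J K) (V : c.Vel) (x' : J → ℝ) (τ : Tri) : ℝ :=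
  ds Γ c.ρ (fun p => x' (c.cls p)) τ.1 τ.2.2 τ.2.1 *
    ip ((1 / 2 : ℝ) • ((V.nu τ.1 τ.2.2 + WS2_V c τ) + (V.nu τ.2.2 τ.1 + WS2_V c τ)))
      (c.s τ.1 τ.2.2)

theorem WS2_sideT_eq (c : WCtx Γ J K) (V : c.Vel) (x' : J → ℝ) (τ : Tri) :
    sideT (Γ := Γ) c.ρ (fun p q => V.nu p q + WS2_V c τ) (fun p => x' (c.cls p)) τ =
      WS2_long c V x' τ + WS2_seam c V x' τ := rfl

theorem WS2_hexT_eq (hF0 : WF0_stmt) (c : WCtx Γ J K) (V : c.Vel) (x' : J → ℝ) (τ : Tri) :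
    hexT (Γ := Γ) c.ρ (fun p q => V.nu p q + WS2_V c τ) (fun p => x' (c.cls p)) τ =
      (WS2_long c V x' τ + WS2_seam c V x' τ) +
      (WS2_long c V x' (rotT τ) + WS2_seam c V x' (rotT τ)) +
      (WS2_long c V x' (rotT (rotT τ)) + WS2_seam c V x' (rotT (rotT τ))) := by
  rw [← WS2_sideT_eq c V x' τ, ← WS2_sideT_eq c V x' (rotT τ),
    ← WS2_sideT_eq c V x' (rotT (rotT τ)), WS2_V_rot hF0 c (rotT τ), WS2_V_rot hF0 c τ]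
  rfl

/-- invariance of the lengths and their variations -/
theorem WS2_ds_ga (hA1 : WA1_stmt) (c : WCtx Γ J K) (x' : J → ℝ) {γ δ ε : SL(2, ℝ)} (hγ : γ ∈ Γ)
    (hδ : δ ∈ Γ) (hε : ε ∈ Γ) {p q r : Bd × Bd} (hp : p ∈ c.X.S.L) (hq : q ∈ c.X.S.L)
    (hr : r ∈ c.X.S.L) :
    ds Γ c.ρ (fun p => x' (c.cls p)) (ga γ p) (ga δ q) (ga ε r) =
      ds Γ c.ρ (fun p => x' (c.cls p)) p q r := by
  have h1 := (hA1 Γ c.hΓ c.X.S c.ρ c.adm).1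
  have e : ∀ γ ∈ Γ, ∀ p ∈ c.X.S.L, xL Γ c.ρ (ga γ p) = xL Γ c.ρ p ∧
      c.cls (ga γ p) = c.cls p := by
    intro γ hγ p hp
    exact ⟨((h1 p hp).2.2.2.2.2 γ hγ).2, c.X.D.cls_ga γ hγ p hp⟩
  unfold ds
  simp only [(e γ hγ p hp).1, (e γ hγ p hp).2, (e δ hδ q hq).1, (e δ hδ q hq).2,
    (e ε hε r hr).1, (e ε hε r hr).2]

/-- invariance of the long side -/
theorem WS2_long_ga (hA0 : WA0_stmt) (hA1 : WA1_stmt) (hR2b : WR2b_stmt) (hF0 : WF0_stmt)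
    (hF1 : WF1_stmt) (hF2 : WF2_stmt) (c : WCtx Γ J K) (V : c.Vel) (x' : J → ℝ) {γ : SL(2, ℝ)}
    (hγ : γ ∈ Γ) {τ : Tri} (hτ : c.X.S.IsHex τ) :
    WS2_long c V x' (gat γ τ) = WS2_long c V x' τ := by
  obtain ⟨-, -, -, -, g5, -⟩ := hR2b Γ c.hΓ c.X.S c.X.pants
  obtain ⟨hp, hq, hr, -, -, -, hs1, hs2⟩ := g5 τ hτ
  have hcls : c.cls (ga γ τ.1) = c.cls τ.1 := c.X.D.cls_ga γ hγ _ hp
  have ha : c.a (ga γ τ.1) = cj (c.ρ γ) (c.a τ.1) :=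
    (((hA1 Γ c.hΓ c.X.S c.ρ c.adm).1 _ hp).2.2.2.2.2 γ hγ).1
  have hV := WS2_V_ga hF0 hF1 hF2 c hτ hγ
  have hn1 := V.nu_ga γ hγ _ _ hs1
  have hn2 := V.nu_ga γ hγ _ _ hs2
  have e1 : (1 / 2 : ℝ) • ((V.nu (ga γ τ.1) (ga γ τ.2.1) + WS2_V c (gat γ τ)) +
      (V.nu (ga γ τ.1) (ga γ τ.2.2) + WS2_V c (gat γ τ))) =
      cj (c.ρ γ) ((1 / 2 : ℝ) • ((V.nu τ.1 τ.2.1 + WS2_V c τ) + (V.nu τ.1 τ.2.2 + WS2_V c τ))) := by
    rw [hn1, hn2, hV]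
    rw [hA0.2.2.2.2.2.1, (hA0.2.2.2.2.1 _ _ _).1, (hA0.2.2.2.2.1 _ (V.nu τ.1 τ.2.1) _).1,
      (hA0.2.2.2.2.1 _ (V.nu τ.1 τ.2.2) _).1]
    congr 1
    abel
  unfold WS2_long
  change (x' (c.cls (ga γ τ.1)) / 2) * ip ((1 / 2 : ℝ) • ((V.nu (ga γ τ.1) (ga γ τ.2.1) +
    WS2_V c (gat γ τ)) + (V.nu (ga γ τ.1) (ga γ τ.2.2) + WS2_V c (gat γ τ)))) (c.a (ga γ τ.1)) = _
  rw [e1, ha, hcls, hA0.1]

/-- invariance of the seam -/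
theorem WS2_seam_ga (hA0 : WA0_stmt) (hA1 : WA1_stmt) (hR2b : WR2b_stmt) (hF0 : WF0_stmt)
    (hF1 : WF1_stmt) (hF2 : WF2_stmt) (c : WCtx Γ J K) (V : c.Vel) (x' : J → ℝ) {γ : SL(2, ℝ)}
    (hγ : γ ∈ Γ) {τ : Tri} (hτ : c.X.S.IsHex τ) :
    WS2_seam c V x' (gat γ τ) = WS2_seam c V x' τ := by
  obtain ⟨-, -, g3, -, g5, -⟩ := hR2b Γ c.hΓ c.X.S c.X.pants
  obtain ⟨hp, hq, hr, -, -, -, hs1, hs2⟩ := g5 τ hτ
  -- the seam from the third leaf back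
  obtain ⟨hrot, -, hnxt, -⟩ := g3 τ hτ
  have hs3 : c.X.S.Seam τ.2.2 τ.1 := (g5 (rotT τ) hrot).2.2.2.2.2.2.1
  have hs : c.s (ga γ τ.1) (ga γ τ.2.2) = cj (c.ρ γ) (c.s τ.1 τ.2.2) :=
    ((hA1 Γ c.hΓ c.X.S c.ρ c.adm).2 τ.1 τ.2.2 (ga (gen Γ τ.1) τ.2.1) hnxt).2.2.2.2.2.2.2.2.2.2.1
      γ hγ
  have hV := WS2_V_ga hF0 hF1 hF2 c hτ hγ
  have hn1 := V.nu_ga γ hγ _ _ hs2
  have hn2 := V.nu_ga γ hγ _ _ hs3
  have e1 : (1 / 2 : ℝ) • ((V.nu (ga γ τ.1) (ga γ τ.2.2) + WS2_V c (gat γ τ)) +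
      (V.nu (ga γ τ.2.2) (ga γ τ.1) + WS2_V c (gat γ τ))) =
      cj (c.ρ γ) ((1 / 2 : ℝ) • ((V.nu τ.1 τ.2.2 + WS2_V c τ) + (V.nu τ.2.2 τ.1 + WS2_V c τ))) := by
    rw [hn1, hn2, hV]
    rw [hA0.2.2.2.2.2.1, (hA0.2.2.2.2.1 _ _ _).1, (hA0.2.2.2.2.1 _ (V.nu τ.1 τ.2.2) _).1,
      (hA0.2.2.2.2.1 _ (V.nu τ.2.2 τ.1) _).1]
    congr 1
    abel
  unfold WS2_seam
  change ds Γ c.ρ (fun p => x' (c.cls p)) (ga γ τ.1) (ga γ τ.2.2) (ga γ τ.2.1) *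
    ip ((1 / 2 : ℝ) • ((V.nu (ga γ τ.1) (ga γ τ.2.2) +
    WS2_V c (gat γ τ)) + (V.nu (ga γ τ.2.2) (ga γ τ.1) + WS2_V c (gat γ τ))))
      (c.s (ga γ τ.1) (ga γ τ.2.2)) = _
  rw [e1, hs, hA0.1, WS2_ds_ga hA1 c x' hγ hγ hγ hp hr hq]

/-- the long side against the actual base point -/
theorem WS2_long_eq (hF1 : WF1_stmt) (hF2 : WF2_stmt) (c : WCtx Γ J K) (B : c.Base) (V : c.Vel)
    (x' : J → ℝ) {τ : Tri} (hτ : c.X.S.IsHex τ) :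
    WS2_long c V x' τ = B.sideS V x' τ + ∑ᶠ b ∈ orb Γ c.l,
      (x' (c.cls τ.1) / 2) * (chT b τ - chi b (B.y τ)) * ip (c.a b) (c.a τ.1) := by
  have h1 := WS2_V_sub hF1 hF2 c hτ (B.y_off τ hτ)
  have hf := WS2_fin hF2 c hτ (B.y_off τ hτ)
  have h2 := WS2_ip_Sm c hf (c.a τ.1)
  have h3 : ∑ᶠ b ∈ orb Γ c.l,
      (x' (c.cls τ.1) / 2) * (chT b τ - chi b (B.y τ)) * ip (c.a b) (c.a τ.1) =
      (x' (c.cls τ.1) / 2) * ip (WS2_V c τ - c.fx c.z₀ (B.y τ)) (c.a τ.1) := by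
    rw [h1, h2]
    rw [WS2_mul _ _ _ (WS2_sub (orb Γ c.l) (fun b => chT b τ - chi b (B.y τ))
      (fun b => ip (c.a b) (c.a τ.1)) hf)]
    exact finsum_mem_congr rfl fun b _ => by ring
  rw [h3]
  unfold WS2_long WCtx.Base.sideS
  rw [← mul_add, ← WS2_ip_add_left]
  congr 2
  module

/-- the two sides of a seam -/
theorem WS2_seam_eq (hA1 : WA1_stmt) (hA4 : WA4_stmt) (hR2b : WR2b_stmt)
    (hF2 : WF2_stmt) (hGM : GM1_stmt) (c : WCtx Γ J K) (V : c.Vel)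
    (x' : J → ℝ) {τ : Tri} (hτ : c.X.S.IsHex τ) :
    WS2_seam c V x' τ + WS2_seam c V x' (mir Γ τ) = 2 * ∑ᶠ b ∈ orb Γ c.l,
      (1 / 2) * ds Γ c.ρ (fun p => x' (c.cls p)) τ.1 τ.2.2 τ.2.1 *
        (chT b τ - chT b (mir Γ τ)) * ip (c.a b) (c.s τ.1 τ.2.2) := by
  obtain ⟨-, -, g3, -, g5, -⟩ := hR2b Γ c.hΓ c.X.S c.X.pants
  obtain ⟨hp, hq, hr, -, -, -, hs1, hs2⟩ := g5 τ hτ
  obtain ⟨hrot, hmir, hnxt, -⟩ := g3 τ hτ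
  have hgen := (hGM Γ c.hΓ τ.1 (c.X.S.closed _ hp)).1
  have hsn : c.s τ.2.2 τ.1 = -c.s τ.1 τ.2.2 :=
    ((hA1 Γ c.hΓ c.X.S c.ρ c.adm).2 τ.1 τ.2.2 (ga (gen Γ τ.1) τ.2.1) hnxt).2.2.2.2.1
  have hds : ds Γ c.ρ (fun p => x' (c.cls p)) τ.2.2 τ.1 (ga (gen Γ τ.1) τ.2.1) =
      ds Γ c.ρ (fun p => x' (c.cls p)) τ.1 τ.2.2 τ.2.1 := by
    have e1 : ds Γ c.ρ (fun p => x' (c.cls p)) τ.2.2 τ.1 (ga (gen Γ τ.1) τ.2.1) =
        ds Γ c.ρ (fun p => x' (c.cls p)) τ.2.2 τ.1 τ.2.1 := by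
      have h1 := WS2_ds_ga hA1 c x' (Γ.one_mem) (Γ.one_mem) hgen hr hp hq
      have h2 : ∀ p : Bd × Bd, ga 1 p = p := fun p => Prod.ext (one_smul _ _) (one_smul _ _)
      rwa [h2, h2] at h1
    rw [e1]
    unfold ds
    exact hA4.2.1 _ _ _ _ _ _
  have hf : {b | b ∈ orb Γ c.l ∧ chT b τ - chT b (mir Γ τ) ≠ 0}.Finite := by
    refine ((WS2_fin hF2 c hτ c.off).union (WS2_fin hF2 c hmir c.off)).subset ?_
    rintro b ⟨hb, hb'⟩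
    by_cases h : chT b τ - chi b c.z₀ = 0
    · right
      refine ⟨hb, fun h2 => hb' ?_⟩
      have h3 : chT b τ = chi b c.z₀ := by linarith
      have h4 : chT b (mir Γ τ) = chi b c.z₀ := by linarith
      rw [h3, h4, sub_self]
    · left; exact ⟨hb, h⟩
  have h1 := WS2_V_mir hF2 c hτ hmir
  have h2 := WS2_ip_Sm c hf (c.s τ.1 τ.2.2)
  have h3 : 2 * ∑ᶠ b ∈ orb Γ c.l,
      (1 / 2) * ds Γ c.ρ (fun p => x' (c.cls p)) τ.1 τ.2.2 τ.2.1 *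
        (chT b τ - chT b (mir Γ τ)) * ip (c.a b) (c.s τ.1 τ.2.2) =
      ds Γ c.ρ (fun p => x' (c.cls p)) τ.1 τ.2.2 τ.2.1 *
        ip (WS2_V c τ - WS2_V c (mir Γ τ)) (c.s τ.1 τ.2.2) := by
    rw [h1, h2]
    rw [WS2_mul _ _ _ (WS2_sub (orb Γ c.l) (fun b => chT b τ - chT b (mir Γ τ))
      (fun b => ip (c.a b) (c.s τ.1 τ.2.2)) hf),
      WS2_mul _ _ _ (WS2_sub' (orb Γ c.l) (fun b => chT b τ - chT b (mir Γ τ))
      (fun b => ip (c.a b) (c.s τ.1 τ.2.2))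
        ((1 / 2) * ds Γ c.ρ (fun p => x' (c.cls p)) τ.1 τ.2.2 τ.2.1) hf)]
    exact finsum_mem_congr rfl fun b _ => by ring
  rw [h3]
  unfold WS2_seam
  change ds Γ c.ρ (fun p => x' (c.cls p)) τ.1 τ.2.2 τ.2.1 *
      ip ((1 / 2 : ℝ) • ((V.nu τ.1 τ.2.2 + WS2_V c τ) + (V.nu τ.2.2 τ.1 + WS2_V c τ)))
      (c.s τ.1 τ.2.2) +
    ds Γ c.ρ (fun p => x' (c.cls p)) τ.2.2 τ.1 (ga (gen Γ τ.1) τ.2.1) *
      ip ((1 / 2 : ℝ) • ((V.nu τ.2.2 τ.1 + WS2_V c (mir Γ τ)) +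
        (V.nu τ.1 τ.2.2 + WS2_V c (mir Γ τ)))) (c.s τ.2.2 τ.1) = _
  rw [hds, hsn, WS2_ip_neg_right]
  have h4 : WS2_V c τ - WS2_V c (mir Γ τ) =
      (1 / 2 : ℝ) • ((V.nu τ.1 τ.2.2 + WS2_V c τ) + (V.nu τ.2.2 τ.1 + WS2_V c τ)) -
      (1 / 2 : ℝ) • ((V.nu τ.2.2 τ.1 + WS2_V c (mir Γ τ)) +
        (V.nu τ.1 τ.2.2 + WS2_V c (mir Γ τ))) := by
    module
  rw [h4, WS2_ip_sub_left]
  ring

theorem WS2 (hA0 : WA0_stmt) (hA1 : WA1_stmt) (hA4 : WA4_stmt) (hR2 : WR2_stmt)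
    (hR2b : WR2b_stmt) (hR3 : WR3_stmt) (hF0 : WF0_stmt) (hF1 : WF1_stmt) (hF2 : WF2_stmt)
    (hS1 : WS1_stmt) (hGM : GM1_stmt) : WS2_stmt := by
  intro Γ J K _ _ c B V x'
  obtain ⟨hS1a, hS1b⟩ := hS1 Γ J K c B V x'
  obtain ⟨ht, -⟩ := hR2 Γ J K c B
  obtain ⟨g1, -, g3, g4, g5, -⟩ := hR2b Γ c.hΓ c.X.S c.X.pants
  set G : Tri → ℝ := fun τ => WS2_long c V x' τ + WS2_seam c V x' τ with hG
  have hGinv : ∀ γ ∈ Γ, ∀ τ, c.X.S.IsHex τ → G (gat γ τ) = G τ := by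
    intro γ hγ τ hτ
    simp only [hG]
    rw [WS2_long_ga hA0 hA1 hR2b hF0 hF1 hF2 c V x' hγ hτ,
      WS2_seam_ga hA0 hA1 hR2b hF0 hF1 hF2 c V x' hγ hτ]
  have hG1 : ∑ x, G (rotT (B.t0 x)) = ∑ x, G (B.t0 x) := (hR3 Γ J K c B G hGinv).1
  have hG2 : ∑ x, G (rotT (rotT (B.t0 x))) = ∑ x, G (rotT (B.t0 x)) := by
    refine (hR3 Γ J K c B (fun τ => G (rotT τ)) ?_).1
    intro γ hγ τ hτ
    change G (rotT (gat γ τ)) = G (rotT τ)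
    rw [(g4 γ hγ τ hτ).1]
    exact hGinv γ hγ _ (g3 τ hτ).1
  have h0 : ∑ x, G (B.t0 x) = 0 := by
    have h1 : ∀ x, hexT (Γ := Γ) c.ρ V.nu (fun p => x' (c.cls p)) (B.t0 x) =
        G (B.t0 x) + G (rotT (B.t0 x)) + G (rotT (rotT (B.t0 x))) := by
      intro x
      rw [← hS1a (WS2_V c (B.t0 x)) (B.t0 x) (ht x)]
      exact WS2_hexT_eq hF0 c V x' (B.t0 x)
    rw [Finset.sum_congr rfl fun x _ => h1 x, Finset.sum_add_distrib, Finset.sum_add_distrib,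
      hG2, hG1] at hS1b
    linarith
  have hseam : ∑ x, WS2_seam c V x' (B.t0 x) = ∑ x, ∑ᶠ b ∈ orb Γ c.l,
      (1 / 2) * ds Γ c.ρ (fun p => x' (c.cls p)) (B.t0 x).1 (B.t0 x).2.2 (B.t0 x).2.1 *
        (chT b (B.t0 x) - chT b (mir Γ (B.t0 x))) * ip (c.a b) (c.s (B.t0 x).1 (B.t0 x).2.2) := by
    have h1 : ∑ x, WS2_seam c V x' (mir Γ (B.t0 x)) = ∑ x, WS2_seam c V x' (B.t0 x) :=
      (hR3 Γ J K c B (WS2_seam c V x') (fun γ hγ τ hτ =>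
        WS2_seam_ga hA0 hA1 hR2b hF0 hF1 hF2 c V x' hγ hτ)).2
    have h2 : ∑ x, (WS2_seam c V x' (B.t0 x) + WS2_seam c V x' (mir Γ (B.t0 x))) =
        ∑ x, 2 * ∑ᶠ b ∈ orb Γ c.l,
      (1 / 2) * ds Γ c.ρ (fun p => x' (c.cls p)) (B.t0 x).1 (B.t0 x).2.2 (B.t0 x).2.1 *
        (chT b (B.t0 x) - chT b (mir Γ (B.t0 x))) * ip (c.a b) (c.s (B.t0 x).1 (B.t0 x).2.2) :=
      Finset.sum_congr rfl fun x _ => WS2_seam_eq hA1 hA4 hR2b hF2 hGM c V x' (ht x)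
    rw [Finset.sum_add_distrib, h1, ← Finset.mul_sum] at h2
    linarith
  have hlong : ∑ x, WS2_long c V x' (B.t0 x) = ∑ x, B.sideS V x' (B.t0 x) +
      ∑ x, ∑ᶠ b ∈ orb Γ c.l, (x' (c.cls (B.t0 x).1) / 2) *
        (chT b (B.t0 x) - chi b (B.y (B.t0 x))) * ip (c.a b) (c.a (B.t0 x).1) := by
    rw [← Finset.sum_add_distrib]
    exact Finset.sum_congr rfl fun x _ => WS2_long_eq hF1 hF2 c B V x' (ht x)
  have hpsi : ∀ x, ∑ᶠ b ∈ orb Γ c.l, B.Psi x' (B.t0 x) b =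
      (∑ᶠ b ∈ orb Γ c.l, (x' (c.cls (B.t0 x).1) / 2) *
        (chT b (B.t0 x) - chi b (B.y (B.t0 x))) * ip (c.a b) (c.a (B.t0 x).1)) +
      ∑ᶠ b ∈ orb Γ c.l,
      (1 / 2) * ds Γ c.ρ (fun p => x' (c.cls p)) (B.t0 x).1 (B.t0 x).2.2 (B.t0 x).2.1 *
        (chT b (B.t0 x) - chT b (mir Γ (B.t0 x))) *
        ip (c.a b) (c.s (B.t0 x).1 (B.t0 x).2.2) := by
    intro x
    have hτ := ht x
    have hmir := (g3 _ hτ).2.1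
    have hf1 := WS2_fin hF2 c hτ (B.y_off _ hτ)
    have hf2 : {b | b ∈ orb Γ c.l ∧ chT b (B.t0 x) - chT b (mir Γ (B.t0 x)) ≠ 0}.Finite := by
      refine ((WS2_fin hF2 c hτ c.off).union (WS2_fin hF2 c hmir c.off)).subset ?_
      rintro b ⟨hb, hb'⟩
      by_cases h : chT b (B.t0 x) - chi b c.z₀ = 0
      · right
        refine ⟨hb, fun h2 => hb' ?_⟩
        linarith
      · left; exact ⟨hb, h⟩
    rw [← finsum_mem_add_distrib' (WS2_sub' (orb Γ c.l)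
      (fun b => chT b (B.t0 x) - chi b (B.y (B.t0 x))) (fun b => ip (c.a b) (c.a (B.t0 x).1))
      (x' (c.cls (B.t0 x).1) / 2) hf1)
      (WS2_sub' (orb Γ c.l) (fun b => chT b (B.t0 x) - chT b (mir Γ (B.t0 x)))
      (fun b => ip (c.a b) (c.s (B.t0 x).1 (B.t0 x).2.2))
        ((1 / 2) * ds Γ c.ρ (fun p => x' (c.cls p)) (B.t0 x).1 (B.t0 x).2.2 (B.t0 x).2.1) hf2)]
    rfl
  rw [Finset.sum_congr rfl fun x _ => hpsi x, Finset.sum_add_distrib, ← add_assoc, ← hlong,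
    ← hseam, ← Finset.sum_add_distrib]
  exact h0

end AdSBend
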