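import Pool.Agent.helper73.AD.GW1
import Pool.Agent.helper73.AW.WP1
import Pool.Agent.helper73.AW.WS2

/-!
WQ1: variation of the lengths (project ad, Wolpert part).
-/

open scoped MatrixGroups LinearAlgebra.Projectivization BigOperators
open Matrix UpperHalfPlane
open Pool.Agent.helper73.AD (PS Word Arc sg Cone)

namespace AdSBend

open LeafSystem

variable {Γ : Subgroup SL(2, ℝ)} {J K : Type}

/-- leaves of the two systems have no common endpoint -/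
theorem WQ1_end (hG3 : GM3_stmt) (hB12 : BD12_stmt) (c : WCtx Γ J K) {v b : Bd × Bd}
    (hv : v ∈ c.X.S.L) (hb : b ∈ c.X.S'.L) :
    v.1 ≠ b.1 ∧ v.1 ≠ b.2 ∧ v.2 ≠ b.1 ∧ v.2 ≠ b.2 := by
  obtain ⟨q, hq, hl⟩ := c.X.cross v hv
  obtain ⟨f1, f2, f3, f4, f5, f6, f7, f8, f9, f10, f11⟩ := id hB12
  have n1 : b ≠ v := by
    intro h
    rw [← h] at hl
    exact c.X.S'.unlinked b hb q hq hl
  have n2 : b ≠ sw v := by
    intro h
    have hl2 : Linked (sw v).1 (sw v).2 q.1 q.2 := (f11 _ _ _ _).1 hl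
    rw [← h] at hl2
    exact c.X.S'.unlinked b hb q hq hl2
  have cb := c.X.S'.closed b hb
  have cb' := c.X.S'.closed _ (c.X.S'.swap b hb)
  have cv := c.X.S.closed v hv
  have cv' := c.X.S.closed _ (c.X.S.swap v hv)
  simp only at cb' cv'
  refine ⟨fun h => ?_, fun h => ?_, fun h => ?_, fun h => ?_⟩
  · rw [h] at cv
    exact n1 (Prod.ext h.symm (hG3 Γ c.hΓ _ _ _ cb cv))
  · rw [h] at cv
    exact n2 (Prod.ext (hG3 Γ c.hΓ _ _ _ cb' cv) h.symm)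
  · rw [h] at cv'
    exact n2 (Prod.ext h.symm (hG3 Γ c.hΓ _ _ _ cb cv'))
  · rw [h] at cv'
    exact n1 (Prod.ext (hG3 Γ c.hΓ _ _ _ cb' cv') h.symm)

/-- points of a leaf that is not crossed -/
theorem WQ1_side (hG3 : GM3_stmt) (hB12 : BD12_stmt) (hB4 : BD4_stmt) (hPT1 : PT1_stmt)
    (hPT3 : PT3_stmt) (c : WCtx Γ J K) {v b : Bd × Bd}
    (hv : v ∈ c.X.S.L) (hb : b ∈ c.X.S'.L) (h : Behind b v.2 ↔ Behind b v.1) {z : ℍ}
    (hz : side z v.1 v.2 = 0) : BehindPt b z ↔ Behind b v.1 := by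
  obtain ⟨hne, hrot, hasy, htot, htr, -⟩ := id hB4
  obtain ⟨e1, e2, e3, e4⟩ := WQ1_end hG3 hB12 c hv hb
  have hvne : v.1 ≠ v.2 := (c.X.S.closed v hv).1
  have hbne : b.1 ≠ b.2 := (c.X.S'.closed b hb).1
  have hz' : side z v.2 v.1 = 0 := by rw [(hPT1 1 z v.1 v.2).2.2.2, hz, neg_zero]
  have aux : ∀ d : Bd × Bd, Cyc d.1 v.1 d.2 → Cyc d.1 v.2 d.2 → 0 < side z d.1 d.2 := by
    intro d h1 h2
    have hd1 := (hne _ _ _ h1).1
    have hd2 := (hne _ _ _ h2).1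
    rcases htot d.1 v.1 v.2 hd1 hvne hd2.symm with h3 | h3
    · exact hPT3.1 v d z ⟨h3, h2⟩ hz.ge
    · exact hPT3.1 (v.2, v.1) d z ⟨h3, h1⟩ hz'.ge
  by_cases hb1 : Behind b v.1
  · have h0 := aux b hb1 (h.2 hb1)
    exact ⟨fun _ => hb1, fun _ => h0⟩
  · have hb2 : ¬ Behind b v.2 := fun h2 => hb1 (h.1 h2)
    have c1 : Cyc b.2 v.1 b.1 := by
      rcases htot b.1 v.1 b.2 e1.symm e2 hbne.symm with h3 | h3
      · exact absurd h3 hb1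
      · exact hrot _ _ _ h3
    have c2 : Cyc b.2 v.2 b.1 := by
      rcases htot b.1 v.2 b.2 e3.symm e4 hbne.symm with h3 | h3
      · exact absurd h3 hb2
      · exact hrot _ _ _ h3
    have h0 := aux (b.2, b.1) c1 c2
    simp only at h0
    rw [(hPT1 1 z b.1 b.2).2.2.2] at h0
    refine ⟨fun h3 => ?_, fun h3 => absurd h3 hb1⟩
    have h4 : 0 < side z b.1 b.2 := h3
    linarith

open Classical in
/-- the function used for the lengths -/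
noncomputable def WQ1_F (c : WCtx Γ J K) (B : c.Base) (j : J) (τ : Tri) (b : Bd × Bd) : ℝ :=
  if c.cls τ.1 = j then (chi b (gen Γ τ.1 • B.y τ) - chi b (B.y τ)) * ip (c.a b) (c.a τ.1) else 0

theorem WQ1_neg_smul (g : SL(2, ℝ)) (z : ℍ) : (-g) • z = g • z := by
  apply UpperHalfPlane.ext
  rw [UpperHalfPlane.coe_specialLinearGroup_apply, UpperHalfPlane.coe_specialLinearGroup_apply]
  have h : ∀ i j, ((-g : SL(2, ℝ)) i j : ℝ) = -(g i j) := by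
    intro i j
    rw [Matrix.SpecialLinearGroup.coe_neg]
    rfl
  simp only [h, map_neg, Complex.ofReal_neg]
  rw [← neg_div_neg_eq]
  congr 1 <;> ring

theorem WQ1_peq_smul {g h : SL(2, ℝ)} (H : PEq g h) (z : ℍ) : g • z = h • z := by
  rcases H with H | H
  · rw [H]
  · rw [H, WQ1_neg_smul]

/-- a leaf is fixed by its generator -/
theorem WQ1_on (hPT1 : PT1_stmt) (hGM : GM1_stmt) (c : WCtx Γ J K) {p : Bd × Bd}
    (hp : p ∈ c.X.S.L) {z : ℍ} (hz : side z p.1 p.2 = 0) :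
    side (gen Γ p • z) p.1 p.2 = 0 := by
  have hg := hGM Γ c.hΓ p (c.X.S.closed _ hp)
  have h1 := ((hPT1 (gen Γ p) z p.1 p.2).2.2.1).2 hz
  rwa [hg.2.1.2.1, hg.2.1.2.2.1] at h1

theorem WQ1_inv (hA0 : WA0_stmt) (hA1 : WA1_stmt) (hF0 : WF0_stmt) (hGM2 : GM2_stmt)
    (hR2b : WR2b_stmt) (hF1 : WF1_stmt) (c : WCtx Γ J K) (B : c.Base) (j : J) :
    ∀ γ ∈ Γ, ∀ τ b, c.X.S.IsHex τ → b ∈ orb Γ c.l →
      WQ1_F c B j (gat γ τ) (ga γ b) = WQ1_F c B j τ b := by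
  intro γ hγ τ b hτ hb
  obtain ⟨-, -, -, -, g5, -⟩ := hR2b Γ c.hΓ c.X.S c.X.pants
  have hp := (g5 τ hτ).1
  have hbL := ((hF1 Γ J K c).1 b hb).1
  have hcls : c.cls (ga γ τ.1) = c.cls τ.1 := c.X.D.cls_ga γ hγ _ hp
  have ha : c.a (ga γ τ.1) = cj (c.ρ γ) (c.a τ.1) :=
    (((hA1 Γ c.hΓ c.X.S c.ρ c.adm).1 _ hp).2.2.2.2.2 γ hγ).1
  have hab : c.a (ga γ b) = cj (c.ρ γ) (c.a b) := (hF0.2.2.2 Γ J K c b hbL).2.2 γ hγ
  have hy := B.y_ga γ hγ τ hτ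
  have hgy : gen Γ (ga γ τ.1) • B.y (gat γ τ) = γ • (gen Γ τ.1 • B.y τ) := by
    rw [hy, WQ1_peq_smul ((hGM2 Γ c.hΓ).2.1 τ.1 (c.X.S.closed _ hp) γ hγ), mul_smul, mul_smul,
      inv_smul_smul]
  have e1 : chi (ga γ b) (gen Γ (ga γ τ.1) • B.y (gat γ τ)) = chi b (gen Γ τ.1 • B.y τ) := by
    rw [hgy, hF0.1]
  have e2 : chi (ga γ b) (B.y (gat γ τ)) = chi b (B.y τ) := by
    rw [hy, hF0.1]
  unfold WQ1_F
  have e3 : (gat γ τ).1 = ga γ τ.1 := rfl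
  rw [e3, hcls, e1, e2, ha, hab, hA0.1]

theorem WQ1_fin (hF1 : WF1_stmt) (hR2b : WR2b_stmt) (hGM : GM1_stmt) (c : WCtx Γ J K)
    (B : c.Base) (j : J) {τ : Tri} (hτ : c.X.S.IsHex τ) :
    c.X.S'.OffPt (gen Γ τ.1 • B.y τ) ∧
    {b | b ∈ orb Γ c.l ∧ chi b (gen Γ τ.1 • B.y τ) - chi b (B.y τ) ≠ 0}.Finite ∧
    {b | b ∈ orb Γ c.l ∧ WQ1_F c B j τ b ≠ 0}.Finite := by
  obtain ⟨-, -, -, -, g5, -⟩ := hR2b Γ c.hΓ c.X.S c.X.pants
  have hp := (g5 τ hτ).1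
  have hg := (hGM Γ c.hΓ τ.1 (c.X.S.closed _ hp)).1
  have hoff := B.y_off τ hτ
  have hoff2 := ((hF1 Γ J K c).2.2.2 (gen Γ τ.1) hg _ _ hoff hoff).1
  have h1 := WS2_fin' hF1 c hoff hoff2
  refine ⟨hoff2, h1, h1.subset ?_⟩
  rintro b ⟨hb, hb'⟩
  refine ⟨hb, fun h => hb' ?_⟩
  unfold WQ1_F
  split_ifs
  · rw [h, zero_mul]
  · rfl

theorem WQ1_cross (hG3 : GM3_stmt) (hB12 : BD12_stmt) (hB4 : BD4_stmt) (hPT1 : PT1_stmt)
    (hPT3 : PT3_stmt) (hGM : GM1_stmt) (hR2b : WR2b_stmt) (hF1 : WF1_stmt) (hF3 : WF3_stmt)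
    (c : WCtx Γ J K) (B : c.Base) (j : J) :
    ∀ τ b, c.X.S.IsHex τ → b ∈ orb Γ c.l → WQ1_F c B j τ b ≠ 0 → c.Crosses τ b := by
  intro τ b hτ hb hne
  by_contra hc
  apply hne
  obtain ⟨-, -, -, -, g5, -⟩ := hR2b Γ c.hΓ c.X.S c.X.pants
  have hp := (g5 τ hτ).1
  have hbL := ((hF1 Γ J K c).1 b hb).1
  have h1 := (hF3 Γ J K c τ hτ b hb hc τ.1 (Or.inl rfl)).2
  have h2 := WQ1_side hG3 hB12 hB4 hPT1 hPT3 c hp hbL h1 (B.y_on τ hτ)
  have h3 := WQ1_side hG3 hB12 hB4 hPT1 hPT3 c hp hbL h1 (WQ1_on hPT1 hGM c hp (B.y_on τ hτ))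
  have h4 : chi b (gen Γ τ.1 • B.y τ) = chi b (B.y τ) := by
    unfold chi
    by_cases h5 : Behind b τ.1.1
    · rw [if_pos (h3.2 h5), if_pos (h2.2 h5)]
    · rw [if_neg (fun h => h5 (h3.1 h)), if_neg (fun h => h5 (h2.1 h))]
  unfold WQ1_F
  rw [h4, sub_self, zero_mul, ite_self]

/-- the left hand side -/
theorem WQ1_left [Fintype J] [DecidableEq J] (hR2 : WR2_stmt)
    (hR2b : WR2b_stmt) (hF1 : WF1_stmt) (hGM : GM1_stmt) (c : WCtx Γ J K) (B : c.Base)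
    (V : c.Vel) (j : J) :
    ∑ x, ∑ᶠ b ∈ orb Γ c.l, WQ1_F c B j (B.t0 x) b = -4 * V.xd (c.X.D.P j) := by
  obtain ⟨ht, -⟩ := hR2 Γ J K c B
  obtain ⟨-, -, -, -, g5, -⟩ := hR2b Γ c.hΓ c.X.S c.X.pants
  have hcls : ∀ x : J × Fin 4, c.cls (B.t0 x).1 = x.1 := by
    rintro ⟨j', i⟩
    fin_cases i
    · exact c.X.D.clsP j'
    · exact c.X.D.clsP j'
    · exact (c.X.D.cls_sw _ (c.X.D.memP j')).trans (c.X.D.clsP j')
    · exact (c.X.D.cls_sw _ (c.X.D.memP j')).trans (c.X.D.clsP j')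
  have hxd : ∀ x : J × Fin 4, V.xd (B.t0 x).1 = V.xd (c.X.D.P x.1) := by
    rintro ⟨j', i⟩
    fin_cases i
    · rfl
    · rfl
    · exact V.xd_sw _ (c.X.D.memP j')
    · exact V.xd_sw _ (c.X.D.memP j')
  have h1 : ∀ x : J × Fin 4, ∑ᶠ b ∈ orb Γ c.l, WQ1_F c B j (B.t0 x) b =
      if x.1 = j then -V.xd (c.X.D.P x.1) else 0 := by
    intro x
    have hτ := ht x
    have hp := (g5 _ hτ).1
    obtain ⟨hoff2, hf, -⟩ := WQ1_fin hF1 hR2b hGM c B j hτ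
    split_ifs with hx
    · have e1 : ∀ b, WQ1_F c B j (B.t0 x) b =
          (chi b (gen Γ (B.t0 x).1 • B.y (B.t0 x)) - chi b (B.y (B.t0 x))) *
            ip (c.a b) (c.a (B.t0 x).1) := by
        intro b
        unfold WQ1_F
        rw [if_pos ((hcls x).trans hx)]
      rw [finsum_mem_congr rfl fun b _ => e1 b, ← WS2_ip_Sm c hf,
        ← WS2_fx hF1 c (B.y_off _ hτ) hoff2, ← hxd x, V.xd_eq _ hp _ (B.y_off _ hτ), neg_neg]
    · have e1 : ∀ b, WQ1_F c B j (B.t0 x) b = 0 := by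
        intro b
        unfold WQ1_F
        rw [if_neg]
        rw [hcls x]
        exact hx
      rw [finsum_mem_congr rfl fun b _ => e1 b]
      simp
  rw [Finset.sum_congr rfl fun x _ => h1 x, Fintype.sum_prod_type]
  simp only [Finset.sum_const, Finset.card_univ, Fintype.card_fin, nsmul_eq_mul]
  rw [Finset.sum_eq_single j]
  · simp
  · intro b _ hb
    simp [hb]
  · intro h; exact absurd (Finset.mem_univ _) h

/-- base points along the fan of an even triple -/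
theorem WQ1_y (hR2b : WR2b_stmt) (hGM : GM1_stmt) (c : WCtx Γ J K) (B : c.Base) {τ : Tri}
    (hτ : c.X.S.IsHex τ) (hn : B.y (nxt Γ τ) = B.y τ) (m : ℤ) :
    B.y (fanT Γ τ m) = gen Γ τ.1 ^ (m / 2) • B.y τ := by
  obtain ⟨-, -, g3, -, g5, -⟩ := hR2b Γ c.hΓ c.X.S c.X.pants
  have hp := (g5 _ hτ).1
  have hg := (hGM Γ c.hΓ τ.1 (c.X.S.closed _ hp)).1
  unfold fanT
  split_ifs
  · exact B.y_ga _ (Γ.zpow_mem hg _) _ hτ
  · rw [B.y_ga _ (Γ.zpow_mem hg _) _ (g3 τ hτ).2.2.1, hn]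

/-- sum over the hexagons at one leaf, as a sum over the integers -/
theorem WQ1_reindex (hC1 : WC1_stmt) (c : WCtx Γ J K) {τ : Tri}
    (hτ : c.X.S.IsHex τ) (F : Tri → ℝ) :
    ∑ᶠ τ' ∈ {τ' : Tri | c.X.S.IsHex τ' ∧ τ'.1 = τ.1}, F τ' = ∑ᶠ m : ℤ, F (fanT Γ τ m) := by
  obtain ⟨h1, -, h3, -⟩ := hC1 Γ c.hΓ c.X.S c.X.pants τ hτ
  rw [← finsum_mem_univ (fun m : ℤ => F (fanT Γ τ m))]
  symm
  refine finsum_mem_eq_of_bijOn (fanT Γ τ) ⟨?_, ?_, ?_⟩ fun _ _ => rfl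
  · intro m _
    exact ⟨(h1 m).1, (h1 m).2.1⟩
  · intro m _ m' _ hmm
    obtain ⟨k, -, hk⟩ := h3 (fanT Γ τ m) (h1 m).1 (h1 m).2.1
    exact (hk m rfl).trans (hk m' hmm).symm
  · rintro τ' ⟨hτ', hp⟩
    obtain ⟨m, hm, -⟩ := h3 τ' hτ' hp
    exact ⟨m, Set.mem_univ _, hm.symm⟩

/-- every leaf has an even triple -/
theorem WQ1_even [Fintype J] [DecidableEq J] (hR2 : WR2_stmt) (hR2b : WR2b_stmt)
    (c : WCtx Γ J K) (B : c.Base) {p : Bd × Bd} (hp : p ∈ c.X.S.L) :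
    ∃ τ, c.X.S.IsHex τ ∧ τ.1 = p ∧ B.y (nxt Γ τ) = B.y τ := by
  obtain ⟨ht, -⟩ := hR2 Γ J K c B
  obtain ⟨g1, -, g3, g4, -, -⟩ := hR2b Γ c.hΓ c.X.S c.X.pants
  have key : ∀ x : J × Fin 4, B.y (nxt Γ (B.t0 x)) = B.y (B.t0 x) → ∀ γ ∈ Γ,
      p = ga γ (B.t0 x).1 → ∃ τ, c.X.S.IsHex τ ∧ τ.1 = p ∧ B.y (nxt Γ τ) = B.y τ := by
    intro x hx γ hγ h
    refine ⟨gat γ (B.t0 x), g1 γ hγ _ (ht x), h.symm, ?_⟩
    rw [(g4 γ hγ _ (ht x)).2.2, B.y_ga γ hγ _ (ht x), B.y_ga γ hγ _ (g3 _ (ht x)).2.2.1, hx]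
  have hcp : c.X.D.cls (c.X.D.P (c.cls p)) = c.X.D.cls p := c.X.D.clsP _
  obtain ⟨γ, hγ, h | h⟩ := c.X.D.cls_inj _ (c.X.D.memP (c.cls p)) p hp hcp
  · exact key (c.cls p, 0) (B.y_one _) γ hγ h
  · exact key (c.cls p, 2) ((B.y_three _).trans (B.y_two _).symm) γ hγ h

theorem WQ1_two (e : ℤ) (X : ℝ) :
    {m : ℤ | (if m / 2 = e then X else 0) ≠ 0}.Finite ∧
      ∑ᶠ m : ℤ, (if m / 2 = e then X else 0) = 2 * X := by
  have hs : Function.support (fun m : ℤ => if m / 2 = e then X else 0) ⊆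
      (({2 * e, 2 * e + 1} : Finset ℤ) : Set ℤ) := by
    intro m hm
    have hm' : (if m / 2 = e then X else 0) ≠ 0 := hm
    have h1 : m / 2 = e := by
      by_contra h
      exact hm' (if_neg h)
    simp only [Finset.coe_insert, Finset.coe_singleton, Set.mem_insert_iff,
      Set.mem_singleton_iff]
    omega
  refine ⟨(Finset.finite_toSet _).subset hs, ?_⟩
  rw [finsum_eq_sum_of_support_subset _ hs, Finset.sum_pair (by omega)]
  have h1 : 2 * e / 2 = e := by omega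
  have h2 : (2 * e + 1) / 2 = e := by omega
  rw [if_pos h1, if_pos h2]
  ring

/-- the sum over the hexagons at a leaf crossed by `l` -/
theorem WQ1_at [Fintype J] [DecidableEq J] (hR2 : WR2_stmt)
    (hR2b : WR2b_stmt) (hGM : GM1_stmt) (hC1 : WC1_stmt) (c : WCtx Γ J K)
    (B : c.Base) (j : J) {p : Bd × Bd} (hp : p ∈ c.X.S.L) (ε : ℝ)
    (h : ∀ z, side z p.1 p.2 = 0 → ∃ e : ℤ, ∀ m : ℤ,
      chi c.l (gen Γ p ^ (m + 1) • z) - chi c.l (gen Γ p ^ m • z) = if m = e then ε else 0) :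
    ({τ : Tri | c.X.S.IsHex τ ∧ τ.1 = p} ∩ Function.support
      (fun τ => WQ1_F c B j τ c.l)).Finite ∧
    ∑ᶠ τ ∈ {τ : Tri | c.X.S.IsHex τ ∧ τ.1 = p}, WQ1_F c B j τ c.l =
      if c.cls p = j then 2 * ε * ip (c.a c.l) (c.a p) else 0 := by
  obtain ⟨τ, hτ, rfl, hn⟩ := WQ1_even hR2 hR2b c B hp
  obtain ⟨e, he⟩ := h (B.y τ) (B.y_on τ hτ)
  obtain ⟨h1, -, h3, -⟩ := hC1 Γ c.hΓ c.X.S c.X.pants τ hτ
  have hF : ∀ m : ℤ, WQ1_F c B j (fanT Γ τ m) c.l =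
      if m / 2 = e then (if c.cls τ.1 = j then ε * ip (c.a c.l) (c.a τ.1) else 0) else 0 := by
    intro m
    have e1 := (h1 m).2.1
    have e2 := WQ1_y hR2b hGM c B hτ hn m
    have e3 : gen Γ τ.1 • (gen Γ τ.1 ^ (m / 2) • B.y τ) = gen Γ τ.1 ^ (m / 2 + 1) • B.y τ := by
      rw [← mul_smul, ← _root_.zpow_one_add, add_comm]
    unfold WQ1_F
    rw [e1, e2, e3, he (m / 2)]
    by_cases h4 : c.cls τ.1 = j
    · rw [if_pos h4]
      by_cases h5 : m / 2 = e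
      · simp [h5, h4]
      · simp [h5]
    · rw [if_neg h4]; simp [h4]
  obtain ⟨w1, w2⟩ := WQ1_two e (if c.cls τ.1 = j then ε * ip (c.a c.l) (c.a τ.1) else 0)
  refine ⟨?_, ?_⟩
  · refine (w1.image (fanT Γ τ)).subset ?_
    rintro τ' ⟨⟨hτ', hp'⟩, hne⟩
    obtain ⟨m, hm, -⟩ := h3 τ' hτ' hp'
    refine ⟨m, ?_, hm.symm⟩
    have hne' : WQ1_F c B j τ' c.l ≠ 0 := hne
    rw [hm, hF m] at hne'
    exact hne'
  · rw [WQ1_reindex hC1 c hτ (fun τ => WQ1_F c B j τ c.l), finsum_congr hF, w2]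
    split_ifs
    · ring
    · ring

theorem WQ1_chi (l : Bd × Bd) (z : ℍ) (P : Prop) [Decidable P] (h : BehindPt l z ↔ P) :
    chi l z = if P then 1 else 0 := by
  unfold chi
  by_cases h1 : P
  · rw [if_pos h1, if_pos (h.2 h1)]
  · rw [if_neg h1, if_neg (fun h2 => h1 (h.1 h2))]

theorem WQ1 (hA0 : WA0_stmt) (hA1 : WA1_stmt) (hR2 : WR2_stmt) (hR2b : WR2b_stmt)
    (hR4 : WR4_stmt) (hY : WY1_stmt) (hF0 : WF0_stmt) (hF1 : WF1_stmt) (hF3 : WF3_stmt)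
    (hE1 : WE1_stmt) (hC1 : WC1_stmt) (hC3 : WC3_stmt) (hGM : GM1_stmt) (hGM2 : GM2_stmt)
    (hG3 : GM3_stmt) (hB12 : BD12_stmt) (hB4 : BD4_stmt) (hPT1 : PT1_stmt)
    (hPT3 : PT3_stmt) : WQ1_stmt := by
  intro Γ J K _ _ c V j
  obtain ⟨B⟩ := hY Γ J K c
  have h1 := hR4 Γ J K c B (WQ1_F c B j)
    (WQ1_inv hA0 hA1 hF0 hGM2 hR2b hF1 c B j)
    (fun τ hτ => (WQ1_fin hF1 hR2b hGM c B j hτ).2.2)
    (WQ1_cross hG3 hB12 hB4 hPT1 hPT3 hGM hR2b hF1 hF3 c B j)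
  rw [WQ1_left hR2 hR2b hF1 hGM c B V j] at h1
  have hl := (hF1 Γ J K c).1 c.l ⟨1, Γ.one_mem, Prod.ext (one_smul _ _).symm (one_smul _ _).symm⟩
  set G : ℤ → ℝ := fun i => if c.cls (c.W.A i) = j then ip (c.a c.l) (c.a (c.W.A i)) else 0
    with hG
  -- outgoing side
  have hRA : ∀ i : ℤ, ({τ : Tri | c.X.S.IsHex τ ∧ τ.1 = c.W.A i} ∩ Function.support
      (fun τ => WQ1_F c B j τ c.l)).Finite ∧
      ∑ᶠ τ ∈ {τ : Tri | c.X.S.IsHex τ ∧ τ.1 = c.W.A i}, WQ1_F c B j τ c.l = 2 * G i := by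
    intro i
    have hm := (c.W.mem i).1
    have h2 := WQ1_at hR2 hR2b hGM hC1 c B j hm 1 (by
      intro z hz
      obtain ⟨k, hk⟩ := hC3 Γ J K c i z hz
      refine ⟨k - 1, fun m => ?_⟩
      rw [WQ1_chi c.l _ _ (hk (m + 1)).1, WQ1_chi c.l _ _ (hk m).1]
      by_cases h3 : m = k - 1
      · rw [if_pos h3, if_pos (by omega), if_neg (by omega)]; ring
      · rw [if_neg h3]
        by_cases h4 : k ≤ m
        · rw [if_pos (by omega), if_pos h4]; ring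
        · rw [if_neg (by omega), if_neg h4]; ring)
    refine ⟨h2.1, h2.2.trans ?_⟩
    simp only [hG]
    split_ifs <;> ring
  -- incoming side
  have hRB : ∀ i : ℤ, ({τ : Tri | c.X.S.IsHex τ ∧ τ.1 = sw (c.W.A i)} ∩ Function.support
      (fun τ => WQ1_F c B j τ c.l)).Finite ∧
      ∑ᶠ τ ∈ {τ : Tri | c.X.S.IsHex τ ∧ τ.1 = sw (c.W.A i)}, WQ1_F c B j τ c.l = 2 * G i := by
    intro i
    have hm := (c.W.mem i).1
    have hm' := c.X.S.swap _ hm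
    have hcs : c.cls (sw (c.W.A i)) = c.cls (c.W.A i) := c.X.D.cls_sw _ hm
    have has : c.a (sw (c.W.A i)) = -c.a (c.W.A i) :=
      ((hA1 Γ c.hΓ c.X.S c.ρ c.adm).1 _ hm).2.2.1
    have h2 := WQ1_at hR2 hR2b hGM hC1 c B j (p := sw (c.W.A i)) hm' (-1) (by
      intro z hz
      have hz' : side z (c.W.A i).1 (c.W.A i).2 = 0 := by
        have h3 := (hPT1 1 z (c.W.A i).1 (c.W.A i).2).2.2.2
        have h4 : side z (c.W.A i).2 (c.W.A i).1 = 0 := hz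
        rw [h4] at h3
        linarith
      obtain ⟨k, hk⟩ := hC3 Γ J K c i z hz'
      refine ⟨-k, fun m => ?_⟩
      rw [WQ1_chi c.l _ _ (hk (m + 1)).2, WQ1_chi c.l _ _ (hk m).2]
      by_cases h3 : m = -k
      · rw [if_pos h3, if_neg (by omega), if_pos (by omega)]; ring
      · rw [if_neg h3]
        by_cases h4 : m ≤ -k
        · rw [if_pos (by omega), if_pos h4]; ring
        · rw [if_neg (by omega), if_neg h4]; ring)
    refine ⟨h2.1, h2.2.trans ?_⟩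
    rw [hcs, has, WS2_ip_neg_right]
    simp only [hG]
    split_ifs <;> ring
  -- one plaque
  have hpl : ∀ i : ℤ, ∑ᶠ τ ∈ {τ : Tri | c.InPl i τ}, WQ1_F c B j τ c.l =
      2 * G i + 2 * G (i + 1) := by
    intro i
    rw [← (hRA i).2, ← (hRB (i + 1)).2]
    have hAB : c.W.A i ≠ sw (c.W.A (i + 1)) := (hE1 Γ J K c i (c.W.A i) (Or.inl rfl)).2.2.2.1
    rw [← finsum_mem_union' ?_ (hRA i).1 (hRB (i + 1)).1]
    · refine finsum_mem_inter_support_eq' _ _ _ ?_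
      intro τ hne
      constructor
      · rintro ⟨hτ, hpl⟩
        by_cases h3 : τ.1 = c.W.A i
        · exact Or.inl ⟨hτ, h3⟩
        by_cases h4 : τ.1 = sw (c.W.A (i + 1))
        · exact Or.inr ⟨hτ, h4⟩
        exfalso
        apply hne
        obtain ⟨-, h6⟩ := (hE1 Γ J K c i τ.1 hpl).2.2.2.2 h3 h4
        have hp : τ.1 ∈ c.X.S.L := by
          rcases hpl with h7 | h7
          · rw [h7]; exact (c.W.mem i).1
          · exact h7.2.1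
        have e1 := h6 _ (B.y_on τ hτ)
        have e2 := h6 _ (WQ1_on hPT1 hGM c hp (B.y_on τ hτ))
        have e3 : chi c.l (gen Γ τ.1 • B.y τ) = chi c.l (B.y τ) := by
          unfold chi
          by_cases h5 : c.One i τ.1
          · rw [if_pos (e2.2 h5), if_pos (e1.2 h5)]
          · rw [if_neg (fun h => h5 (e2.1 h)), if_neg (fun h => h5 (e1.1 h))]
        unfold WQ1_F
        rw [e3, sub_self, zero_mul, ite_self]
      · rintro (⟨hτ, h3⟩ | ⟨hτ, h3⟩)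
        · exact ⟨hτ, Or.inl h3⟩
        · refine ⟨hτ, Or.inr ?_⟩
          rw [h3]
          exact c.W.copl i
    · rw [Set.disjoint_left]
      rintro τ ⟨-, h3⟩ ⟨-, h4⟩
      exact hAB (h3.symm.trans h4)
  -- periodicity
  have hgen := hGM Γ c.hΓ c.l (c.X.S'.closed _ hl.1)
  have hfix : ga (gen Γ c.l) c.l = c.l := Prod.ext hgen.2.1.2.1 hgen.2.1.2.2.1
  have hal : cj (c.ρ (gen Γ c.l)) (c.a c.l) = c.a c.l := by
    rw [← (hF0.2.2.2 Γ J K c c.l hl.1).2.2 (gen Γ c.l) hgen.1, hfix]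
  have hper : G ((c.w.n : ℤ) + 1) = G 0 := by
    have e2 : c.W.A (0 + c.w.n + 1) = ga (gen Γ c.l) (c.W.A 0) := c.W.perA 0
    have hm : c.W.A 0 ∈ c.X.S.L := (c.W.mem 0).1
    have e3 : c.cls (ga (gen Γ c.l) (c.W.A 0)) = c.cls (c.W.A 0) :=
      c.X.D.cls_ga _ hgen.1 _ hm
    have e4 : c.a (ga (gen Γ c.l) (c.W.A 0)) = cj (c.ρ (gen Γ c.l)) (c.a (c.W.A 0)) :=
      (((hA1 Γ c.hΓ c.X.S c.ρ c.adm).1 _ hm).2.2.2.2.2 _ hgen.1).1
    have e5 : ip (c.a c.l) (cj (c.ρ (gen Γ c.l)) (c.a (c.W.A 0))) =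
        ip (c.a c.l) (c.a (c.W.A 0)) := by
      conv_lhs => rw [← hal]
      exact hA0.1 _ _ _
    have e0 : ((c.w.n : ℤ) + 1) = 0 + c.w.n + 1 := by ring
    simp only [hG]
    rw [e0, e2, e3, e4, e5]
  have hshift := WP1_shift c.w.n G hper
  rw [Finset.sum_congr rfl fun (i : Fin (c.w.n + 1)) _ => hpl (i.val : ℤ),
    Finset.sum_add_distrib, ← Finset.mul_sum, ← Finset.mul_sum, hshift] at h1
  have h9 : ∑ i : Fin (c.w.n + 1), (if c.w.j i = j then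
      ip (c.a c.l) (c.a (c.W.A (i.val : ℤ))) else 0) = ∑ i : Fin (c.w.n + 1), G (i.val : ℤ) := by
    refine Finset.sum_congr rfl fun i _ => ?_
    simp only [hG]
    have hj : c.cls (c.W.A (i.val : ℤ)) = c.w.j i := (c.W.cj i).symm
    rw [hj]
  rw [h9]
  linarith

end AdSBend
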